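import Mathlib

/-!
# Log rational connectedness of pairs in projective space

* If the divisor `D` of `X ⊆ ℙⁿ` has a component which is cut out by a form, and `D` has another
  component, then `(X, D)` is not log rationally connected. In particular `(ℙⁿ, D)` is not log
  rationally connected for any reducible hypersurface `D`, of any degree.
* For every irreducible quadric `D` (of rank at least three, smooth or not), and for every
  hyperplane, `(ℙⁿ, D)` is log rationally connected, with arbitrary (not only general) points.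
-/

set_option autoImplicit false

namespace Pool.Agent.Results.MP_776d16_ag.QuadricsAndReducible

open MvPolynomial

/-- Complex projective space of dimension `n`. -/
abbrev PP (n : ℕ) : Type := Projectivization ℂ (Fin (n + 1) → ℂ)

/-- Data of a morphism from the projective line to `PP n`: an `(n+1)`-tuple of homogeneous
binary forms of a common degree without common zero. -/
structure LineMap (n : ℕ) where
  deg : ℕ
  form : Fin (n + 1) → MvPolynomial (Fin 2) ℂ
  homog : ∀ i, (form i).IsHomogeneous deg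
  noCommonZero : ∀ v : Fin 2 → ℂ, v ≠ 0 → (fun i => eval v (form i)) ≠ 0

/-- The image of the morphism. -/
def LineMap.image {n : ℕ} (f : LineMap n) : Set (PP n) :=
  {P | ∃ (v : Fin 2 → ℂ) (hv : v ≠ 0),
    P = Projectivization.mk ℂ (fun i => eval v (f.form i)) (f.noCommonZero v hv)}

/-- A rational curve: the image of a nonconstant morphism from the projective line. -/
def IsRationalCurve {n : ℕ} (C : Set (PP n)) : Prop :=
  ∃ f : LineMap n, C = f.image ∧ C.Nontrivial

/-- Log rational connectedness of the pair consisting of the closed set `X` of `PP n` and the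
closed subset `D` of `X`: any `p ∈ X` and `q ∈ X \ D` are on a rational curve in `X` which is not
contained in `D` and meets `D` in exactly one point. -/
def LogRationallyConnected {n : ℕ} (X D : Set (PP n)) : Prop :=
  ∀ p q : PP n, p ∈ X → q ∈ X → q ∉ D →
    ∃ C : Set (PP n), IsRationalCurve C ∧ C ⊆ X ∧ p ∈ C ∧ q ∈ C ∧ ¬ C ⊆ D ∧ ∃ x, C ∩ D = {x}

/-- The hypersurface of `PP n` defined by the form `F`. -/
def hypersurface {n : ℕ} (F : MvPolynomial (Fin (n + 1)) ℂ) : Set (PP n) :=
  {P | eval P.rep F = 0}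

/-- The quadric of `PP n` with the equation `xᵀ A x = 0`. -/
def quadric {n : ℕ} (A : Matrix (Fin (n + 1)) (Fin (n + 1)) ℂ) : Set (PP n) :=
  {P | P.rep ⬝ᵥ A.mulVec P.rep = 0}

/-- The hyperplane of `PP n` with the equation `a · x = 0`. -/
def hyperplane {n : ℕ} (a : Fin (n + 1) → ℂ) : Set (PP n) :=
  {P | a ⬝ᵥ P.rep = 0}

/-- the quadric defined by a bilinear form -/
def quadricB {n : ℕ} (B : LinearMap.BilinForm ℂ (Fin (n + 1) → ℂ)) : Set (PP n) :=
  {P | B P.rep P.rep = 0}

/-- the hyperplane defined by a linear form -/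
def hyperplaneL {n : ℕ} (l : (Fin (n + 1) → ℂ) →ₗ[ℂ] ℂ) : Set (PP n) :=
  {P | l P.rep = 0}

/-! ## Forms -/

theorem eval_smul_of_homog {σ : Type} [Fintype σ] {d : ℕ} {F : MvPolynomial σ ℂ}
    (hF : F.IsHomogeneous d) (c : ℂ) (v : σ → ℂ) : eval (c • v) F = c ^ d * eval v F := by
  rw [eval_eq, eval_eq, Finset.mul_sum]
  refine Finset.sum_congr rfl fun s hs => ?_
  have h1 : s.degree = d := by
    have := hF (mem_support_iff.mp hs)
    rw [Finsupp.weight_apply] at this
    simpa [Finsupp.degree_apply, Finsupp.sum] using this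
  have h2 : ∏ i ∈ s.support, (c • v) i ^ s i
      = c ^ d * ∏ i ∈ s.support, v i ^ s i := by
    simp_rw [Pi.smul_apply, smul_eq_mul, mul_pow]
    rw [Finset.prod_mul_distrib, Finset.prod_pow_eq_pow_sum]
    congr 2
  rw [h2]; ring

/-- A binary form of positive degree has a nontrivial zero. -/
theorem exists_zero {d : ℕ} (hd : 1 ≤ d) {F : MvPolynomial (Fin 2) ℂ}
    (hF : F.IsHomogeneous d) : ∃ v : Fin 2 → ℂ, v ≠ 0 ∧ eval v F = 0 := by
  by_contra hcon
  push Not at hcon
  -- dehomogenise in both charts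
  let g : Polynomial ℂ := aeval ![Polynomial.X, 1] F
  let h : Polynomial ℂ := aeval ![1, Polynomial.X] F
  have hg : ∀ x : ℂ, g.eval x = eval ![x, 1] F := by
    intro x
    have e : (Polynomial.evalRingHom x).comp
        (aeval ![Polynomial.X, (1 : Polynomial ℂ)] : MvPolynomial (Fin 2) ℂ →ₐ[ℂ] _).toRingHom
        = eval ![x, 1] := by
      apply MvPolynomial.ringHom_ext
      · intro r; simp
      · intro i; fin_cases i <;> simp
    exact RingHom.congr_fun e F
  have hh : ∀ x : ℂ, h.eval x = eval ![1, x] F := by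
    intro x
    have e : (Polynomial.evalRingHom x).comp
        (aeval ![(1 : Polynomial ℂ), Polynomial.X] : MvPolynomial (Fin 2) ℂ →ₐ[ℂ] _).toRingHom
        = eval ![1, x] := by
      apply MvPolynomial.ringHom_ext
      · intro r; simp
      · intro i; fin_cases i <;> simp
    exact RingHom.congr_fun e F
  have hgdeg : g.degree = 0 := by
    by_contra hne
    obtain ⟨x, hx⟩ := IsAlgClosed.exists_root g hne
    rw [Polynomial.IsRoot.def, hg] at hx
    refine hcon ![x, 1] ?_ hx
    intro h0
    have := congrFun h0 1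
    simp at this
  obtain ⟨a, ha⟩ : ∃ a, g = Polynomial.C a := ⟨_, Polynomial.eq_C_of_degree_eq_zero hgdeg⟩
  have key : ∀ y : ℂ, y ≠ 0 → h.eval y = a * y ^ d := by
    intro y hy
    rw [hh]
    have : (![1, y] : Fin 2 → ℂ) = y • (![y⁻¹, 1] : Fin 2 → ℂ) := by
      funext i; fin_cases i <;> simp [hy]
    rw [this, eval_smul_of_homog hF, ← hg, ha]
    simp [mul_comm]
  have heq : h = Polynomial.C a * Polynomial.X ^ d := by
    apply Polynomial.eq_of_infinite_eval_eq
    have : ({0}ᶜ : Set ℂ).Infinite := (Set.finite_singleton (0 : ℂ)).infinite_compl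
    refine this.mono ?_
    intro y hy
    simp only [Set.mem_ofPred_eq]
    rw [key y hy]; simp
  have h0 : eval ![1, 0] F = 0 := by
    rw [← hh, heq]
    simp
    right; omega
  refine hcon ![1, 0] ?_ h0
  intro h1
  have := congrFun h1 0
  simp at this

/-- The common degree of a nonconstant map is positive. -/
theorem deg_pos {n : ℕ} (f : LineMap n) (hf : f.image.Nontrivial) : 1 ≤ f.deg := by
  by_contra hlt
  have hd : f.deg = 0 := by omega
  obtain ⟨P, ⟨v, hv, rfl⟩, Q, ⟨w, hw, rfl⟩, hPQ⟩ := hf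
  apply hPQ
  have : ∀ i, eval v (f.form i) = eval w (f.form i) := by
    intro i
    have h1 := f.homog i
    rw [hd] at h1
    have h2 : (f.form i).totalDegree = 0 := by
      have := h1.totalDegree_le
      omega
    rw [MvPolynomial.totalDegree_eq_zero_iff_eq_C] at h2
    rw [h2]; simp
  congr 1
  funext i
  exact this i

/-! ## Functions homogeneous under scaling -/

/-- membership in the zero set of a homogeneous function does not depend on the representative -/
theorem rep_iff {n : ℕ} {Φ : (Fin (n + 1) → ℂ) → ℂ} {m : ℕ}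
    (hΦ : ∀ (c : ℂ) v, Φ (c • v) = c ^ m * Φ v) (v : Fin (n + 1) → ℂ) (hv : v ≠ 0) :
    Φ (Projectivization.mk ℂ v hv).rep = 0 ↔ Φ v = 0 := by
  obtain ⟨a, ha⟩ := Projectivization.exists_smul_eq_mk_rep ℂ v hv
  rw [← ha, Units.smul_def, hΦ]
  constructor
  · intro h
    exact (mul_eq_zero.1 h).resolve_left (pow_ne_zero _ a.ne_zero)
  · intro h
    rw [h, mul_zero]

theorem hom_form {n d : ℕ} {F : MvPolynomial (Fin (n + 1)) ℂ} (hF : F.IsHomogeneous d) :
    ∀ (c : ℂ) (v : Fin (n + 1) → ℂ), eval (c • v) F = c ^ d * eval v F :=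
  fun c v => eval_smul_of_homog hF c v

theorem hom_bilin {n : ℕ} (B : LinearMap.BilinForm ℂ (Fin (n + 1) → ℂ)) :
    ∀ (c : ℂ) (v : Fin (n + 1) → ℂ), B (c • v) (c • v) = c ^ 2 * B v v := by
  intro c v
  rw [map_smul, map_smul, LinearMap.smul_apply, smul_eq_mul, smul_eq_mul]
  ring

theorem hom_lin {n : ℕ} (l : (Fin (n + 1) → ℂ) →ₗ[ℂ] ℂ) :
    ∀ (c : ℂ) (v : Fin (n + 1) → ℂ), l (c • v) = c ^ 1 * l v := by
  intro c v
  rw [map_smul, smul_eq_mul, pow_one]

/-! ## The negative part -/

/-- A rational curve meets every hypersurface. -/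
theorem meets {n d : ℕ} (hd : 1 ≤ d) {G : MvPolynomial (Fin (n + 1)) ℂ} (hG : G.IsHomogeneous d)
    (f : LineMap n) (hf : f.image.Nontrivial) : ∃ P ∈ f.image, P ∈ hypersurface G := by
  have hdeg := deg_pos f hf
  have hhom : (bind₁ f.form G).IsHomogeneous (d * f.deg) := by
    have := hG.aeval f.form f.homog
    rwa [mul_comm] at this
  obtain ⟨v, hv, hv0⟩ := exists_zero (Nat.mul_pos hd hdeg) hhom
  refine ⟨_, ⟨v, hv, rfl⟩, ?_⟩
  show eval _ G = 0
  rw [rep_iff (Φ := fun w => eval w G) (hom_form hG)]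
  rw [← hv0]
  show eval (fun i => eval v (f.form i)) G = eval v (bind₁ f.form G)
  rw [show (eval v (bind₁ f.form G)) = eval₂Hom (RingHom.id ℂ) v (bind₁ f.form G) from rfl,
    eval₂Hom_bind₁]
  rfl

theorem not_lrc {n d : ℕ} (hd : 1 ≤ d) {G : MvPolynomial (Fin (n + 1)) ℂ}
    (hG : G.IsHomogeneous d) {X D : Set (PP n)} (hGD : X ∩ hypersurface G ⊆ D)
    (hp : ∃ p ∈ X ∩ D, p ∉ hypersurface G) (hq : ∃ q ∈ X, q ∉ D) :
    ¬ LogRationallyConnected X D := by
  intro hL
  obtain ⟨p, ⟨hpX, hpD⟩, hpG⟩ := hp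
  obtain ⟨q, hqX, hqD⟩ := hq
  obtain ⟨C, ⟨f, rfl, hnt⟩, hCX, hpC, hqC, -, x, hx⟩ := hL p q hpX hqX hqD
  have hpx : p = x := by
    have : p ∈ f.image ∩ D := ⟨hpC, hpD⟩
    rw [hx] at this
    exact this
  obtain ⟨P, hPC, hPG⟩ := meets hd hG f hnt
  have hPD : P ∈ f.image ∩ D := ⟨hPC, hGD ⟨hCX hPC, hPG⟩⟩
  rw [hx] at hPD
  have hPx : P = x := hPD
  apply hpG
  rw [hpx, ← hPx]
  exact hPG

/-- Nullstellensatz: if `G` and `H` are forms of positive degree without common factor, then some
point is a zero of `G` and not of `H`. -/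
theorem exists_point {n a b : ℕ} (ha : 1 ≤ a) (hb : 1 ≤ b) {G H : MvPolynomial (Fin (n + 1)) ℂ}
    (hG : G.IsHomogeneous a) (hH : H.IsHomogeneous b) (hGH : IsRelPrime G H) :
    ∃ P : PP n, P ∈ hypersurface G ∧ P ∉ hypersurface H := by
  by_contra hcon
  push Not at hcon
  have hzero : ∀ v : Fin (n + 1) → ℂ, eval v G = 0 → eval v H = 0 := by
    intro v hv
    by_cases hv0 : v = 0
    · rw [hv0]
      have := hom_form hH 0 (0 : Fin (n + 1) → ℂ)
      rw [smul_zero, zero_pow (by omega), zero_mul] at this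
      exact this
    · have h1 := hcon (Projectivization.mk ℂ v hv0)
        ((rep_iff (Φ := fun w => eval w G) (hom_form hG) v hv0).2 hv)
      exact (rep_iff (Φ := fun w => eval w H) (hom_form hH) v hv0).1 h1
  have hmem : H ∈ vanishingIdeal ℂ (zeroLocus ℂ (Ideal.span {G})) := by
    rw [mem_vanishingIdeal_iff]
    intro x hx
    rw [mem_zeroLocus_iff] at hx
    have h1 := hx G (Ideal.mem_span_singleton_self G)
    rw [aeval_eq_eval] at h1 ⊢
    exact hzero x h1
  rw [vanishingIdeal_zeroLocus_eq_radical] at hmem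
  obtain ⟨k, hk⟩ := hmem
  rw [Ideal.mem_span_singleton] at hk
  have hunit : IsUnit G := (IsRelPrime.pow_right (n := k) hGH) dvd_rfl hk
  rw [MvPolynomial.isUnit_iff_eq_C_of_isReduced] at hunit
  obtain ⟨r, hr, hGr⟩ := hunit
  have h0 : eval (0 : Fin (n + 1) → ℂ) G = 0 := by
    have := hom_form hG 0 (0 : Fin (n + 1) → ℂ)
    rw [smul_zero, zero_pow (by omega), zero_mul] at this
    exact this
  rw [hGr, eval_C] at h0
  exact hr.ne_zero h0

theorem not_lrc_reducible {n a b : ℕ} (ha : 1 ≤ a) (hb : 1 ≤ b)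
    {G H : MvPolynomial (Fin (n + 1)) ℂ} (hG : G.IsHomogeneous a) (hH : H.IsHomogeneous b)
    (hGH : IsRelPrime G H) : ¬ LogRationallyConnected Set.univ (hypersurface (G * H)) := by
  have hmul : ∀ P : PP n, P ∈ hypersurface (G * H) ↔ P ∈ hypersurface G ∨ P ∈ hypersurface H := by
    intro P
    show eval _ (G * H) = 0 ↔ eval _ G = 0 ∨ eval _ H = 0
    rw [map_mul, mul_eq_zero]
  have hne : ∀ {c : ℕ} (_ : 1 ≤ c) {F F' : MvPolynomial (Fin (n + 1)) ℂ} (_ : F'.IsHomogeneous c),
      IsRelPrime F F' → F ≠ 0 := by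
    intro c hc F F' hF' hrel h0
    have hu : IsUnit F' := hrel (by rw [h0]; exact dvd_zero _) dvd_rfl
    rw [MvPolynomial.isUnit_iff_eq_C_of_isReduced] at hu
    obtain ⟨r, hr, hFr⟩ := hu
    have h1 := hom_form hF' 0 (0 : Fin (n + 1) → ℂ)
    rw [smul_zero, zero_pow (by omega), zero_mul, hFr, eval_C] at h1
    exact hr.ne_zero h1
  have hG0 : G ≠ 0 := hne hb hH hGH
  have hH0 : H ≠ 0 := hne ha hG hGH.symm
  refine not_lrc hb hH (fun P hP => (hmul P).2 (Or.inr hP.2)) ?_ ?_
  · obtain ⟨P, h1, h2⟩ := exists_point ha hb hG hH hGH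
    exact ⟨P, ⟨Set.mem_univ _, (hmul P).2 (Or.inl h1)⟩, h2⟩
  · have hGH0 : G * H ≠ 0 := mul_ne_zero hG0 hH0
    obtain ⟨v, hv⟩ : ∃ v : Fin (n + 1) → ℂ, eval v (G * H) ≠ 0 := by
      by_contra hall
      push Not at hall
      exact hGH0 (MvPolynomial.funext fun v => by rw [hall v, map_zero])
    have hhom : (G * H).IsHomogeneous (a + b) := hG.mul hH
    have hv0 : v ≠ 0 := by
      rintro rfl
      have := hom_form hhom 0 (0 : Fin (n + 1) → ℂ)
      rw [smul_zero, zero_pow (by omega), zero_mul] at this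
      exact hv this
    refine ⟨Projectivization.mk ℂ v hv0, Set.mem_univ _, ?_⟩
    intro h
    exact hv ((rep_iff (Φ := fun w => eval w (G * H)) (hom_form hhom) v hv0).1 h)

/-! ## The positive part -/

section pos

variable {n : ℕ}

/-- the forms with value `s² u + s t v + t² w` -/
noncomputable def quadForm (u v w : Fin (n + 1) → ℂ) (i : Fin (n + 1)) : MvPolynomial (Fin 2) ℂ :=
  C (u i) * (X 0 * X 0) + C (v i) * (X 0 * X 1) + C (w i) * (X 1 * X 1)

theorem quadForm_homog (u v w : Fin (n + 1) → ℂ) (i : Fin (n + 1)) :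
    (quadForm u v w i).IsHomogeneous 2 := by
  have h : ∀ (c : ℂ) (a b : Fin 2),
      (C c * (X a * X b) : MvPolynomial (Fin 2) ℂ).IsHomogeneous 2 := by
    intro c a b
    have := (isHomogeneous_C (Fin 2) c).mul ((isHomogeneous_X ℂ a).mul (isHomogeneous_X ℂ b))
    simpa using this
  exact ((h _ _ _).add (h _ _ _)).add (h _ _ _)

theorem eval_quadForm (u v w : Fin (n + 1) → ℂ) (z : Fin 2 → ℂ) :
    (fun i => eval z (quadForm u v w i)) = z 0 ^ 2 • u + (z 0 * z 1) • v + z 1 ^ 2 • w := by
  funext i
  simp only [quadForm, map_add, map_mul, eval_C, eval_X, Pi.add_apply, Pi.smul_apply, smul_eq_mul]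
  ring

theorem conic {Φ : (Fin (n + 1) → ℂ) → ℂ} {m k : ℕ} (hm : m ≠ 0) (hk : k ≠ 0)
    (hΦ : ∀ (c : ℂ) v, Φ (c • v) = c ^ m * Φ v) {κ : ℂ} (hκ : κ ≠ 0) {u v w : Fin (n + 1) → ℂ}
    (h : ∀ s t : ℂ, Φ (s ^ 2 • u + (s * t) • v + t ^ 2 • w) = κ * s ^ k) (hw : w ≠ 0)
    {p q : PP n} (hq : Φ q.rep ≠ 0)
    (hpZ : ∃ s t c : ℂ, c ≠ 0 ∧ s ^ 2 • u + (s * t) • v + t ^ 2 • w = c • p.rep)
    (hqZ : ∃ s t c : ℂ, c ≠ 0 ∧ s ^ 2 • u + (s * t) • v + t ^ 2 • w = c • q.rep) :
    ∃ C : Set (PP n), IsRationalCurve C ∧ C ⊆ Set.univ ∧ p ∈ C ∧ q ∈ C ∧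
      ¬ C ⊆ {P | Φ P.rep = 0} ∧ ∃ x, C ∩ {P | Φ P.rep = 0} = {x} := by
  have hΦ0 : Φ 0 = 0 := by
    have := hΦ 0 0
    rw [smul_zero, zero_pow hm, zero_mul] at this
    exact this
  have hz1 : ∀ z : Fin 2 → ℂ, z ≠ 0 → z 0 = 0 → z 1 ≠ 0 := by
    intro z hz h0 h1
    apply hz
    funext i
    fin_cases i
    · exact h0
    · exact h1
  let f : LineMap n :=
    { deg := 2
      form := quadForm u v w
      homog := quadForm_homog u v w
      noCommonZero := by
        intro z hz h0
        rw [eval_quadForm] at h0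
        have h1 := h (z 0) (z 1)
        rw [h0, hΦ0] at h1
        have h2 : z 0 = 0 := by
          have := (mul_eq_zero.1 h1.symm).resolve_left hκ
          exact (pow_eq_zero_iff hk).1 this
        rw [h2, zero_pow two_ne_zero, zero_smul, zero_mul, zero_smul, zero_add, zero_add] at h0
        rcases smul_eq_zero.1 h0 with h3 | h3
        · exact hz1 z hz h2 ((pow_eq_zero_iff two_ne_zero).1 h3)
        · exact hw h3 }
  have hmem : ∀ r : PP n, (∃ s t c : ℂ, c ≠ 0 ∧ s ^ 2 • u + (s * t) • v + t ^ 2 • w = c • r.rep) →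
      r ∈ f.image := by
    rintro r ⟨s, t, c, hc, hst⟩
    have hne : (![s, t] : Fin 2 → ℂ) ≠ 0 := by
      intro h0
      have h1 : s = 0 := congrFun h0 0
      have h2 : t = 0 := congrFun h0 1
      rw [h1, h2] at hst
      simp only [ne_eq, OfNat.ofNat_ne_zero, not_false_eq_true, zero_pow, zero_smul, mul_zero,
        add_zero] at hst
      rcases smul_eq_zero.1 hst.symm with h3 | h3
      · exact hc h3
      · exact r.rep_nonzero h3
    refine ⟨![s, t], hne, ?_⟩
    conv_lhs => rw [← Projectivization.mk_rep r]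
    rw [Projectivization.mk_eq_mk_iff']
    refine ⟨c⁻¹, ?_⟩
    have h1 : (fun i => eval ![s, t] (f.form i)) = c • r.rep := by
      show (fun i => eval ![s, t] (quadForm u v w i)) = _
      rw [eval_quadForm]
      exact hst
    rw [h1, smul_smul, inv_mul_cancel₀ hc, one_smul]
  have hpC := hmem p hpZ
  have hqC := hmem q hqZ
  have hinter : f.image ∩ {P | Φ P.rep = 0} = {Projectivization.mk ℂ w hw} := by
    ext P
    simp only [Set.mem_inter_iff, Set.mem_singleton_iff, Set.mem_ofPred_eq]
    constructor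
    · rintro ⟨⟨z, hz, rfl⟩, hP⟩
      rw [rep_iff hΦ] at hP
      have h1 : (fun i => eval z (f.form i)) = z 0 ^ 2 • u + (z 0 * z 1) • v + z 1 ^ 2 • w :=
        eval_quadForm u v w z
      rw [h1, h] at hP
      have h2 : z 0 = 0 := (pow_eq_zero_iff hk).1 ((mul_eq_zero.1 hP).resolve_left hκ)
      rw [Projectivization.mk_eq_mk_iff']
      refine ⟨z 1 ^ 2, ?_⟩
      rw [h1, h2, zero_pow two_ne_zero, zero_smul, zero_mul, zero_smul, zero_add, zero_add]
    · rintro rfl
      refine ⟨?_, ?_⟩
      · refine ⟨![0, 1], ?_, ?_⟩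
        · intro h0
          have := congrFun h0 1
          simp at this
        · rw [Projectivization.mk_eq_mk_iff']
          refine ⟨1, ?_⟩
          have h1 : (fun i => eval ![0, 1] (f.form i)) = w := by
            show (fun i => eval ![0, 1] (quadForm u v w i)) = _
            rw [eval_quadForm]
            simp
          rw [h1, one_smul]
      · rw [rep_iff hΦ]
        have := h 0 1
        rw [zero_pow two_ne_zero, zero_smul, zero_mul, zero_smul, zero_add, zero_add, one_pow,
          one_smul, zero_pow hk, mul_zero] at this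
        exact this
  have hxC : Projectivization.mk ℂ w hw ∈ f.image ∩ {P | Φ P.rep = 0} := by
    rw [hinter]
    rfl
  refine ⟨f.image, ⟨f, rfl, q, hqC, _, hxC.1, ?_⟩, Set.subset_univ _, hpC, hqC,
    fun hsub => hq (hsub hqC), _, hinter⟩
  rintro rfl
  exact hq hxC.2

theorem eq_of_smul {p q : PP n} {c : ℂ} (h : q.rep = c • p.rep) : q = p := by
  rw [← Projectivization.mk_rep q, ← Projectivization.mk_rep p, Projectivization.mk_eq_mk_iff']
  exact ⟨c, h.symm⟩

variable {B : LinearMap.BilinForm ℂ (Fin (n + 1) → ℂ)}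

theorem rank_le {a b : Fin (n + 1) → ℂ} (h : ∀ v, ∃ α β : ℂ, B v = α • B a + β • B b) :
    Module.finrank ℂ (LinearMap.range B) ≤ 2 := by
  classical
  have hle : LinearMap.range B ≤ Submodule.span ℂ (({B a, B b} : Finset _) : Set _) := by
    rintro _ ⟨v, rfl⟩
    obtain ⟨α, β, hv⟩ := h v
    rw [hv]
    refine Submodule.add_mem _ (Submodule.smul_mem _ _ (Submodule.subset_span ?_))
      (Submodule.smul_mem _ _ (Submodule.subset_span ?_))
    · simp
    · simp
  exact (Submodule.finrank_mono hle).trans ((finrank_span_finset_le_card _).trans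
    Finset.card_le_two)

theorem polar (hB : ∀ x y, B x y = B y x) {f g : Fin (n + 1) → ℂ} (h1 : B f f = 0)
    (h2 : B g g = 0) (h3 : B (f + g) (f + g) = 0) : B f g = 0 := by
  simp only [map_add, LinearMap.add_apply] at h3
  rw [h1, h2, hB g f] at h3
  have : 2 * B f g = 0 := by linear_combination h3
  exact (mul_eq_zero.1 this).resolve_left two_ne_zero

theorem exists_perp1 (hB : ∀ x y, B x y = B y x) (hr : 3 ≤ Module.finrank ℂ (LinearMap.range B))
    {x y : Fin (n + 1) → ℂ} (hy : B x y ≠ 0) : ∃ d, B x d = 0 ∧ B d d ≠ 0 := by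
  by_contra hcon
  push Not at hcon
  have hpol : ∀ f g, B x f = 0 → B x g = 0 → B f g = 0 := fun f g hf hg =>
    polar hB (hcon f hf) (hcon g hg) (hcon _ (by rw [map_add, hf, hg, add_zero]))
  set s : Fin (n + 1) → ℂ := (B x y)⁻¹ • y with hs
  have hxs : B x s = 1 := by rw [hs, map_smul, smul_eq_mul, inv_mul_cancel₀ hy]
  have hle := rank_le (B := B) (a := x) (b := s) (fun v => by
    refine ⟨B v s - B x v * B s s, B x v, ?_⟩
    apply LinearMap.ext
    intro w
    have h0 := hpol (v - B x v • s) (w - B x w • s)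
      (by rw [map_sub, map_smul, hxs, smul_eq_mul, mul_one, sub_self])
      (by rw [map_sub, map_smul, hxs, smul_eq_mul, mul_one, sub_self])
    simp only [map_sub, map_smul, LinearMap.sub_apply, LinearMap.smul_apply, smul_eq_mul] at h0
    simp only [LinearMap.add_apply, LinearMap.smul_apply, smul_eq_mul]
    linear_combination h0)
  omega

theorem decomp2 (hB : ∀ x y, B x y = B y x)
    {d e : Fin (n + 1) → ℂ} (hd : B d d ≠ 0) (he : B e e ≠ 0) (hde : B d e = 0)
    (hcon : ∀ f, B d f = 0 → B e f = 0 → B f f = 0) (v : Fin (n + 1) → ℂ) :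
    B v = (B d v / B d d) • B d + (B e v / B e e) • B e := by
  have hed : B e d = 0 := by rw [hB, hde]
  have hpol : ∀ f g, B d f = 0 → B e f = 0 → B d g = 0 → B e g = 0 → B f g = 0 :=
    fun f g hf hf' hg hg' => polar hB (hcon f hf hf') (hcon g hg hg')
      (hcon _ (by rw [map_add, hf, hg, add_zero]) (by rw [map_add, hf', hg', add_zero]))
  have h1 : ∀ v, B d (v - (B d v / B d d) • d - (B e v / B e e) • e) = 0 := by
    intro v
    simp only [map_sub, map_smul, smul_eq_mul, hde]
    field_simp
    ring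
  have h2 : ∀ v, B e (v - (B d v / B d d) • d - (B e v / B e e) • e) = 0 := by
    intro v
    simp only [map_sub, map_smul, smul_eq_mul, hed]
    field_simp
    ring
  apply LinearMap.ext
  intro w
  have h0 := hpol _ _ (h1 v) (h2 v) (h1 w) (h2 w)
  have h3 : B (v - (B d v / B d d) • d - (B e v / B e e) • e)
      (w - (B d w / B d d) • d - (B e w / B e e) • e) =
      B (v - (B d v / B d d) • d - (B e v / B e e) • e) w := by
    have e1 : B (v - (B d v / B d d) • d - (B e v / B e e) • e) d = 0 := (hB _ _).trans (h1 v)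
    have e2 : B (v - (B d v / B d d) • d - (B e v / B e e) • e) e = 0 := (hB _ _).trans (h2 v)
    generalize v - (B d v / B d d) • d - (B e v / B e e) • e = z at e1 e2
    rw [map_sub, map_sub, map_smul, map_smul, e1, e2, smul_zero, smul_zero, sub_zero, sub_zero]
  rw [h3] at h0
  simp only [map_sub, map_smul, LinearMap.sub_apply, LinearMap.smul_apply, smul_eq_mul] at h0
  simp only [LinearMap.add_apply, LinearMap.smul_apply, smul_eq_mul]
  linear_combination h0

theorem exists_perp2 (hr : 3 ≤ Module.finrank ℂ (LinearMap.range B)) (hB : ∀ x y, B x y = B y x)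
    {d e : Fin (n + 1) → ℂ} (hd : B d d ≠ 0) (he : B e e ≠ 0) (hde : B d e = 0) :
    ∃ f, B d f = 0 ∧ B e f = 0 ∧ B f f ≠ 0 := by
  by_contra hcon
  push Not at hcon
  have hle := rank_le (B := B) (a := d) (b := e) (fun v =>
    ⟨_, _, decomp2 hB hd he hde hcon v⟩)
  omega

theorem quad_identity (hB : ∀ x y, B x y = B y x) {u d x : Fin (n + 1) → ℂ} (hx : B x x = 0)
    (hxd : B x d = 0) (hc : B x u ≠ 0) (s t : ℂ) :
    B (s ^ 2 • u + (s * t) • (d - (B u d / B x u) • x) + t ^ 2 • (-(B d d / (2 * B x u)) • x))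
      (s ^ 2 • u + (s * t) • (d - (B u d / B x u) • x) + t ^ 2 • (-(B d d / (2 * B x u)) • x)) =
    B u u * s ^ 4 := by
  simp only [map_add, map_sub, map_smul, LinearMap.add_apply, LinearMap.sub_apply,
    LinearMap.smul_apply, smul_eq_mul, hx, hxd, hB d x, hB u x, hB d u]
  field_simp
  ring

theorem conic_quad (hB : ∀ x y, B x y = B y x) {u d x : Fin (n + 1) → ℂ} (hx : B x x = 0)
    (hx0 : x ≠ 0) (hxd : B x d = 0) (hc : B x u ≠ 0) (hd : B d d ≠ 0) (hu : B u u ≠ 0)
    {p q : PP n} (hq : B q.rep q.rep ≠ 0)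
    (hpZ : ∃ s t c : ℂ, c ≠ 0 ∧ s ^ 2 • u + (s * t) • (d - (B u d / B x u) • x) +
      t ^ 2 • (-(B d d / (2 * B x u)) • x) = c • p.rep)
    (hqZ : ∃ s t c : ℂ, c ≠ 0 ∧ s ^ 2 • u + (s * t) • (d - (B u d / B x u) • x) +
      t ^ 2 • (-(B d d / (2 * B x u)) • x) = c • q.rep) :
    ∃ C : Set (PP n), IsRationalCurve C ∧ C ⊆ Set.univ ∧ p ∈ C ∧ q ∈ C ∧ ¬ C ⊆ quadricB B ∧
      ∃ x, C ∩ quadricB B = {x} :=
  conic (Φ := fun v => B v v) two_ne_zero (k := 4) (by norm_num) (hom_bilin B) hu
    (quad_identity hB hx hxd hc)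
    (by
      intro h0
      rcases smul_eq_zero.1 h0 with h1 | h1
      · have : B d d / (2 * B x u) ≠ 0 := div_ne_zero hd (mul_ne_zero two_ne_zero hc)
        exact this (neg_eq_zero.1 h1)
      · exact hx0 h1) hq hpZ hqZ

/-- the line through `[u]` and the point `[w]` of the quadric conjugate to it -/
theorem line_quad (hB : ∀ x y, B x y = B y x) {u w : Fin (n + 1) → ℂ} (hw : B w w = 0)
    (hw0 : w ≠ 0) (huw : B u w = 0) (hu : B u u ≠ 0) {p q : PP n} (hq : B q.rep q.rep ≠ 0)
    (hpZ : ∃ s t c : ℂ, c ≠ 0 ∧ s ^ 2 • u + (s * t) • (0 : Fin (n + 1) → ℂ) + t ^ 2 • w =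
      c • p.rep)
    (hqZ : ∃ s t c : ℂ, c ≠ 0 ∧ s ^ 2 • u + (s * t) • (0 : Fin (n + 1) → ℂ) + t ^ 2 • w =
      c • q.rep) :
    ∃ C : Set (PP n), IsRationalCurve C ∧ C ⊆ Set.univ ∧ p ∈ C ∧ q ∈ C ∧ ¬ C ⊆ quadricB B ∧
      ∃ x, C ∩ quadricB B = {x} :=
  conic (Φ := fun v => B v v) two_ne_zero (k := 4) (by norm_num) (hom_bilin B) hu
    (by
      intro s t
      simp only [smul_zero, add_zero, map_add, map_smul, LinearMap.add_apply,
        LinearMap.smul_apply, smul_eq_mul, hw, huw, hB w u]
      ring) hw0 hq hpZ hqZ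

theorem lrc_quadric (hB : ∀ x y, B x y = B y x)
    (hr : 3 ≤ Module.finrank ℂ (LinearMap.range B)) :
    LogRationallyConnected Set.univ (quadricB B) := by
  -- the case of a point `p` on the quadric
  have caseA : ∀ p q : PP n, B p.rep p.rep = 0 → B q.rep q.rep ≠ 0 →
      ∃ C : Set (PP n), IsRationalCurve C ∧ C ⊆ Set.univ ∧ p ∈ C ∧ q ∈ C ∧ ¬ C ⊆ quadricB B ∧
        ∃ x, C ∩ quadricB B = {x} := by
    intro p q hp hq
    by_cases hc : B p.rep q.rep = 0
    · exact line_quad hB hp p.rep_nonzero (by rw [hB, hc]) hq hq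
        ⟨0, 1, 1, one_ne_zero, by simp⟩ ⟨1, 0, 1, one_ne_zero, by simp⟩
    · obtain ⟨d, hd1, hd2⟩ := exists_perp1 hB hr hc
      exact conic_quad hB hp p.rep_nonzero hd1 hc hd2 hq hq
        ⟨0, 1, -(B d d / (2 * B p.rep q.rep)),
          neg_ne_zero.2 (div_ne_zero hd2 (mul_ne_zero two_ne_zero hc)), by simp⟩
        ⟨1, 0, 1, one_ne_zero, by simp⟩
  intro p q _ _ hq
  have hq' : B q.rep q.rep ≠ 0 := hq
  by_cases hp : B p.rep p.rep = 0
  · exact caseA p q hp hq'
  by_cases hpq : p = q
  · subst hpq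
    -- some point of the quadric
    obtain ⟨v, hv⟩ : ∃ v : Fin (n + 1) → ℂ, ∀ α : ℂ, v ≠ α • p.rep := by
      by_contra hcon
      push Not at hcon
      have := rank_le (B := B) (a := p.rep) (b := p.rep) (fun v => by
        obtain ⟨α, hα⟩ := hcon v
        exact ⟨α, 0, by rw [hα, map_smul, zero_smul, add_zero]⟩)
      omega
    obtain ⟨l, hl⟩ : ∃ l : ℂ, B (v + l • p.rep) (v + l • p.rep) = 0 := by
      obtain ⟨r, hr⟩ := IsAlgClosed.exists_pow_nat_eq
        (B v p.rep ^ 2 - B p.rep p.rep * B v v) two_pos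
      refine ⟨(-B v p.rep + r) / B p.rep p.rep, ?_⟩
      simp only [map_add, map_smul, LinearMap.add_apply, LinearMap.smul_apply, smul_eq_mul,
        hB p.rep v]
      field_simp
      linear_combination hr
    have hne : v + l • p.rep ≠ 0 := by
      intro h0
      exact hv (-l) (by rw [neg_smul]; exact eq_neg_of_add_eq_zero_left h0)
    obtain ⟨C, h1, h2, -, h4, h5, h6⟩ := caseA (Projectivization.mk ℂ _ hne) p
      ((rep_iff (Φ := fun v => B v v) (hom_bilin B) _ hne).2 hl) hp
    exact ⟨C, h1, h2, h4, h4, h5, h6⟩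
  · -- two different points off the quadric
    obtain ⟨a, ha⟩ := IsAlgClosed.exists_pow_nat_eq (B q.rep q.rep / B p.rep p.rep) two_pos
    have ha0 : a ≠ 0 := by
      rintro rfl
      rw [zero_pow two_ne_zero] at ha
      exact div_ne_zero hq' hp ha.symm
    set u : Fin (n + 1) → ℂ := a • p.rep with hu
    set w : Fin (n + 1) → ℂ := q.rep with hw
    have huu : B u u = B w w := by
      rw [hu, hom_bilin, ha, div_mul_cancel₀ _ hp]
    have huu0 : B u u ≠ 0 := by rw [huu]; exact hq'
    have hbetaQ : 2 * B u (w - u) + B (w - u) (w - u) = 0 := by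
      simp only [map_sub, LinearMap.sub_apply, hB w u]
      linear_combination -huu
    have hd0 : w - u ≠ 0 := by
      intro h0
      exact hpq (eq_of_smul (c := a) (sub_eq_zero.1 h0)).symm
    have he0 : w + u ≠ 0 := by
      intro h0
      apply hpq
      refine (eq_of_smul (c := -a) ?_).symm
      rw [neg_smul]
      exact eq_neg_of_add_eq_zero_left h0
    by_cases hQd : B (w - u) (w - u) = 0
    · have hb : B u (w - u) = 0 := by
        rw [hQd, add_zero] at hbetaQ
        exact (mul_eq_zero.1 hbetaQ).resolve_left two_ne_zero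
      exact line_quad hB hQd hd0 hb huu0 hq' ⟨1, 0, a, ha0, by simp [hu]⟩
        ⟨1, 1, 1, one_ne_zero, by simp [hw]⟩
    · have hde : B (w - u) (w + u) = 0 := by
        simp only [map_sub, map_add, LinearMap.sub_apply, hB w u]
        linear_combination -huu
      by_cases hrad : ∀ y, B (w + u) y = 0
      · refine line_quad hB (w := -(w + u)) ?_ (neg_ne_zero.2 he0) ?_ huu0 hq'
          ⟨1, 0, a, ha0, by simp [hu]⟩ ⟨1, 1, -1, by norm_num, ?_⟩
        · rw [map_neg, map_neg, LinearMap.neg_apply, neg_neg, hrad]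
        · rw [map_neg, hB, hrad, neg_zero]
        · simp only [one_pow, one_smul, mul_one, smul_zero, add_zero]
          rw [← hw]
          module
      · push Not at hrad
        obtain ⟨y, hy⟩ := hrad
        -- an isotropic vector orthogonal to `w - u` and not to `w + u`
        obtain ⟨x, hx1, hx2, hx3⟩ : ∃ x, B x x = 0 ∧ B x (w - u) = 0 ∧ B x (w + u) ≠ 0 := by
          by_cases hQe : B (w + u) (w + u) = 0
          · set d := w - u with hd
            set e := w + u with he
            set y' := y - (B d y / B d d) • d with hy'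
            have h1 : B d y' = 0 := by
              rw [hy', map_sub, map_smul, smul_eq_mul, div_mul_cancel₀ _ hQd, sub_self]
            have h2 : B e y' = B e y := by
              rw [hy', map_sub, map_smul, hB e d, hde, smul_zero, sub_zero]
            have h3 : B e y' ≠ 0 := by rw [h2]; exact hy
            refine ⟨y' - (B y' y' / (2 * B e y')) • e, ?_, ?_, ?_⟩
            · simp only [map_sub, map_smul, LinearMap.sub_apply, LinearMap.smul_apply,
                smul_eq_mul, hQe, hB y' e]
              field_simp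
              ring
            · rw [hB, map_sub, map_smul, h1, hde, smul_zero, sub_zero]
            · rw [hB, map_sub, map_smul, hQe, smul_zero, sub_zero]
              exact h3
          · obtain ⟨f, hf1, hf2, hf3⟩ := exists_perp2 hr hB hQd hQe hde
            obtain ⟨l, hl⟩ := IsAlgClosed.exists_pow_nat_eq
              (-(B (w + u) (w + u) / B f f)) two_pos
            set d := w - u with hd
            set e := w + u with he
            refine ⟨e + l • f, ?_, ?_, ?_⟩
            · simp only [map_add, map_smul, LinearMap.add_apply, LinearMap.smul_apply,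
                smul_eq_mul, hf2, hB f e]
              have h4 : l ^ 2 * B f f = -B e e := by
                rw [hl]; field_simp
              linear_combination h4
            · rw [hB, map_add, map_smul, hde, hf1, smul_zero, add_zero]
            · rw [hB, map_add, map_smul, hf2, smul_zero, add_zero]
              exact hQe
        have hx0 : x ≠ 0 := by
          rintro rfl
          rw [map_zero, LinearMap.zero_apply] at hx3
          exact hx3 rfl
        have h2xu : B x (w + u) = 2 * B x u := by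
          rw [map_sub] at hx2
          rw [map_add]
          linear_combination hx2
        have hc : B x u ≠ 0 := by
          intro h0
          rw [h2xu, h0, mul_zero] at hx3
          exact hx3 rfl
        refine conic_quad hB hx1 hx0 hx2 hc hQd huu0 hq' ⟨1, 0, a, ha0, by simp [hu]⟩
          ⟨1, 1, 1, one_ne_zero, ?_⟩
        have hcoef : B u (w - u) / B x u + B (w - u) (w - u) / (2 * B x u) = 0 := by
          field_simp
          linear_combination hbetaQ
        have : (1 : ℂ) ^ 2 • u + ((1 : ℂ) * 1) • ((w - u) - (B u (w - u) / B x u) • x) +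
            (1 : ℂ) ^ 2 • (-(B (w - u) (w - u) / (2 * B x u)) • x) =
            w - (B u (w - u) / B x u + B (w - u) (w - u) / (2 * B x u)) • x := by
          module
        rw [this, hcoef, zero_smul, sub_zero, one_smul]

theorem lrc_hyperplane (hn : 1 ≤ n) (l : (Fin (n + 1) → ℂ) →ₗ[ℂ] ℂ) :
    LogRationallyConnected Set.univ (hyperplaneL l) := by
  have main : ∀ p q : PP n, p ≠ q → l q.rep ≠ 0 →
      ∃ C : Set (PP n), IsRationalCurve C ∧ C ⊆ Set.univ ∧ p ∈ C ∧ q ∈ C ∧ ¬ C ⊆ hyperplaneL l ∧
        ∃ x, C ∩ hyperplaneL l = {x} := by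
    intro p q hpq hq
    have hlin : ∀ w : Fin (n + 1) → ℂ, l w = 0 → ∀ s t : ℂ,
        l (s ^ 2 • q.rep + (s * t) • (0 : Fin (n + 1) → ℂ) + t ^ 2 • w) = l q.rep * s ^ 2 := by
      intro w hw s t
      simp only [smul_zero, add_zero, map_add, map_smul, smul_eq_mul, hw, mul_zero]
      ring
    by_cases hp : l p.rep = 0
    · exact conic (Φ := fun v => l v) one_ne_zero (k := 2) two_ne_zero (hom_lin l) hq
        (hlin p.rep hp) p.rep_nonzero hq ⟨0, 1, 1, one_ne_zero, by simp⟩
        ⟨1, 0, 1, one_ne_zero, by simp⟩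
    · set c : ℂ := l q.rep / l p.rep with hc
      have hc0 : c ≠ 0 := div_ne_zero hq hp
      have h0 : l (c • p.rep - q.rep) = 0 := by
        rw [map_sub, map_smul, smul_eq_mul, hc, div_mul_cancel₀ _ hp, sub_self]
      refine conic (Φ := fun v => l v) one_ne_zero (k := 2) two_ne_zero (hom_lin l) hq
        (hlin _ h0) ?_ hq ⟨1, 1, c, hc0, ?_⟩ ⟨1, 0, 1, one_ne_zero, by simp⟩
      · intro h1
        exact hpq (eq_of_smul (c := c) (sub_eq_zero.1 h1).symm).symm
      · simp
  intro p q _ _ hq
  have hq' : l q.rep ≠ 0 := hq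
  by_cases hpq : p = q
  · subst hpq
    obtain ⟨v, hv0, hv⟩ : ∃ v : Fin (n + 1) → ℂ, v ≠ 0 ∧ l v = 0 := by
      by_contra hcon
      push Not at hcon
      have hinj : Function.Injective l := by
        rw [injective_iff_map_eq_zero]
        intro a ha
        by_contra hne
        exact hcon a hne ha
      have := LinearMap.finrank_le_finrank_of_injective hinj
      rw [Module.finrank_fin_fun, Module.finrank_self] at this
      omega
    have hne : Projectivization.mk ℂ v hv0 ≠ p := by
      rintro h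
      apply hq'
      rw [← h]
      exact (rep_iff (Φ := fun v => l v) (hom_lin l) v hv0).2 hv
    obtain ⟨C, h1, h2, -, h4, h5, h6⟩ := main _ p hne hq'
    exact ⟨C, h1, h2, h4, h4, h5, h6⟩
  · exact main p q hpq hq'

/-! ### The classification of the quadrics -/

theorem linForm (l : (Fin (n + 1) → ℂ) →ₗ[ℂ] ℂ) :
    ∃ G : MvPolynomial (Fin (n + 1)) ℂ, G.IsHomogeneous 1 ∧ ∀ v, eval v G = l v := by
  refine ⟨∑ i, C (l fun j => if i = j then 1 else 0) * X i, ?_, fun v => ?_⟩
  · refine IsHomogeneous.sum _ _ _ fun i _ => ?_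
    simpa using (isHomogeneous_C (Fin (n + 1)) _).mul (isHomogeneous_X ℂ i)
  · rw [map_sum, LinearMap.pi_apply_eq_sum_univ l v]
    refine Finset.sum_congr rfl fun i _ => ?_
    rw [map_mul, eval_C, eval_X, smul_eq_mul, mul_comm]

theorem rank_ge {k : ℕ} (a : Fin k → Fin (n + 1) → ℂ)
    (h1 : ∀ i, B (a i) (a i) ≠ 0) (h2 : ∀ i j, i ≠ j → B (a i) (a j) = 0) :
    k ≤ Module.finrank ℂ (LinearMap.range B) := by
  have hli : LinearIndependent ℂ (fun i => B (a i)) := by
    rw [Fintype.linearIndependent_iff]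
    intro g hg i
    have h3 := LinearMap.congr_fun hg (a i)
    rw [LinearMap.sum_apply, Finset.sum_eq_single i] at h3
    · rw [LinearMap.smul_apply, smul_eq_mul, LinearMap.zero_apply] at h3
      exact (mul_eq_zero.1 h3).resolve_right (h1 i)
    · intro j _ hj
      rw [LinearMap.smul_apply, h2 j i hj, smul_zero]
    · intro h
      exact absurd (Finset.mem_univ i) h
  have h4 := finrank_span_eq_card hli
  rw [Fintype.card_fin] at h4
  rw [← h4]
  refine Submodule.finrank_mono (Submodule.span_le.2 ?_)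
  rintro _ ⟨i, rfl⟩
  exact ⟨a i, rfl⟩

theorem quadric_iff (hn : 1 ≤ n) (hB : ∀ x y, B x y = B y x) (hB0 : B ≠ 0) :
    LogRationallyConnected Set.univ (quadricB B) ↔ Module.finrank ℂ (LinearMap.range B) ≠ 2 := by
  obtain ⟨a, ha⟩ : ∃ a, B a a ≠ 0 := by
    by_contra hcon
    push Not at hcon
    exact hB0 (LinearMap.ext fun v => LinearMap.ext fun w => polar hB (hcon v) (hcon w) (hcon _))
  by_cases h1 : ∀ b, B a b = 0 → B b b = 0
  · -- rank one
    have hdec : ∀ v w, B v w = B a v * B a w / B a a := by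
      intro v w
      have e1 : ∀ v, B a (v - (B a v / B a a) • a) = 0 := by
        intro v
        simp only [map_sub, map_smul, smul_eq_mul]
        field_simp
        ring
      have h0 : B (v - (B a v / B a a) • a) (w - (B a w / B a a) • a) = 0 :=
        polar hB (h1 _ (e1 v)) (h1 _ (e1 w)) (h1 _ (by rw [map_add, e1, e1, add_zero]))
      simp only [map_sub, map_smul, LinearMap.sub_apply, LinearMap.smul_apply, smul_eq_mul,
        hB v a] at h0
      field_simp at h0 ⊢
      linear_combination h0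
    have hq : quadricB B = hyperplaneL (B a) := by
      ext P
      show B P.rep P.rep = 0 ↔ B a P.rep = 0
      rw [hdec]
      constructor
      · intro h
        rw [div_eq_zero_iff] at h
        rcases h with h | h
        · exact mul_self_eq_zero.1 h
        · exact absurd h ha
      · intro h
        rw [h, zero_mul, zero_div]
    have hlt : Module.finrank ℂ (LinearMap.range B) ≤ 1 := by
      have hle : LinearMap.range B ≤ Submodule.span ℂ (({B a} : Finset _) : Set _) := by
        rintro _ ⟨v, rfl⟩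
        rw [Finset.coe_singleton, Submodule.mem_span_singleton]
        refine ⟨B a v / B a a, ?_⟩
        apply LinearMap.ext
        intro w
        rw [LinearMap.smul_apply, smul_eq_mul, hdec v w]
        ring
      exact (Submodule.finrank_mono hle).trans ((finrank_span_finset_le_card _).trans (by simp))
    rw [hq]
    exact iff_of_true (lrc_hyperplane hn _) (by omega)
  · push Not at h1
    obtain ⟨b, hab, hb⟩ := h1
    have hba : B b a = 0 := by rw [hB, hab]
    by_cases h2 : ∀ f, B a f = 0 → B b f = 0 → B f f = 0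
    · -- rank two
      have hdec := decomp2 hB ha hb hab h2
      have hle := rank_le (B := B) (a := a) (b := b) fun v => ⟨_, _, hdec v⟩
      have hge : 2 ≤ Module.finrank ℂ (LinearMap.range B) := by
        refine rank_ge ![a, b] ?_ ?_
        · intro i
          fin_cases i
          · exact ha
          · exact hb
        · intro i j hij
          fin_cases i <;> fin_cases j
          · exact absurd rfl hij
          · exact hab
          · exact hba
          · exact absurd rfl hij
      refine iff_of_false ?_ (by omega)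
      obtain ⟨α, hα⟩ := IsAlgClosed.exists_pow_nat_eq (B a a)⁻¹ two_pos
      obtain ⟨β, hβ⟩ := IsAlgClosed.exists_pow_nat_eq (-(B b b)⁻¹) two_pos
      have hα0 : α ≠ 0 := by
        rintro rfl
        rw [zero_pow two_ne_zero] at hα
        exact inv_ne_zero ha hα.symm
      have hβ0 : β ≠ 0 := by
        rintro rfl
        rw [zero_pow two_ne_zero] at hβ
        exact neg_ne_zero.2 (inv_ne_zero hb) hβ.symm
      have hprod : ∀ v, B v v = (α • B a + β • B b) v * (α • B a - β • B b) v := by
        intro v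
        have h3 := LinearMap.congr_fun (hdec v) v
        rw [h3]
        simp only [LinearMap.add_apply, LinearMap.sub_apply, LinearMap.smul_apply, smul_eq_mul]
        have h4 : (B a a)⁻¹ = α ^ 2 := hα.symm
        have h5 : (B b b)⁻¹ = -β ^ 2 := by rw [hβ, neg_neg]
        rw [div_eq_mul_inv, div_eq_mul_inv, h4, h5]
        ring
      obtain ⟨G, hG, hGv⟩ := linForm (α • B a - β • B b)
      have hmem : ∀ (v : Fin (n + 1) → ℂ) (hv : v ≠ 0),
          Projectivization.mk ℂ v hv ∈ quadricB B ↔ B v v = 0 := fun v hv =>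
        rep_iff (Φ := fun v => B v v) (hom_bilin B) v hv
      have hmemG : ∀ (v : Fin (n + 1) → ℂ) (hv : v ≠ 0),
          Projectivization.mk ℂ v hv ∈ hypersurface G ↔ (α • B a - β • B b) v = 0 := by
        intro v hv
        rw [← hGv]
        exact rep_iff (Φ := fun v => eval v G) (hom_form hG) v hv
      refine not_lrc le_rfl hG ?_ ?_ ?_
      · rintro P ⟨-, hP⟩
        show B P.rep P.rep = 0
        rw [hprod, ← hGv, show eval P.rep G = 0 from hP, mul_zero]
      · -- the point `β Q(b) a - α Q(a) b`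
        set v : Fin (n + 1) → ℂ := (β * B b b) • a - (α * B a a) • b with hv
        have e1 : B a v = β * B b b * B a a := by
          rw [hv, map_sub, map_smul, map_smul, hab, smul_zero, sub_zero, smul_eq_mul]
        have e2 : B b v = -(α * B a a * B b b) := by
          rw [hv, map_sub, map_smul, map_smul, hba, smul_zero, zero_sub, smul_eq_mul]
        have e3 : (α • B a + β • B b) v = 0 := by
          simp only [LinearMap.add_apply, LinearMap.smul_apply, smul_eq_mul, e1, e2]
          ring
        have e4 : (α • B a - β • B b) v ≠ 0 := by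
          simp only [LinearMap.sub_apply, LinearMap.smul_apply, smul_eq_mul, e1, e2]
          have : α * (β * B b b * B a a) - β * -(α * B a a * B b b) =
              2 * α * β * B a a * B b b := by ring
          rw [this]
          exact mul_ne_zero (mul_ne_zero (mul_ne_zero (mul_ne_zero two_ne_zero hα0) hβ0) ha) hb
        have hv0 : v ≠ 0 := by
          intro h0
          rw [h0, map_zero] at e4
          exact e4 rfl
        refine ⟨Projectivization.mk ℂ v hv0, ⟨Set.mem_univ _, ?_⟩, ?_⟩
        · rw [hmem, hprod, e3, zero_mul]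
        · rw [hmemG]
          exact e4
      · have ha0 : a ≠ 0 := by
          rintro rfl
          rw [map_zero] at ha
          exact ha rfl
        refine ⟨Projectivization.mk ℂ a ha0, Set.mem_univ _, ?_⟩
        rw [hmem]
        exact ha
    · -- rank at least three
      push Not at h2
      obtain ⟨f, haf, hbf, hf⟩ := h2
      have hge : 3 ≤ Module.finrank ℂ (LinearMap.range B) := by
        refine rank_ge ![a, b, f] ?_ ?_
        · intro i
          fin_cases i
          · exact ha
          · exact hb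
          · exact hf
        · intro i j hij
          fin_cases i <;> fin_cases j
          · exact absurd rfl hij
          · exact hab
          · exact haf
          · exact hba
          · exact absurd rfl hij
          · exact hbf
          · exact (hB _ _).trans haf
          · exact (hB _ _).trans hbf
          · exact absurd rfl hij
      exact iff_of_true (lrc_quadric hB hge) (by omega)

/-! ### Matrices -/

theorem toBilin_symm {A : Matrix (Fin (n + 1)) (Fin (n + 1)) ℂ} (hA : A.IsSymm)
    (v w : Fin (n + 1) → ℂ) : Matrix.toBilin' A v w = Matrix.toBilin' A w v := by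
  rw [Matrix.toBilin'_apply', Matrix.toBilin'_apply', Matrix.dotProduct_mulVec,
    ← Matrix.mulVec_transpose, hA.eq, dotProduct_comm]

theorem rank_toBilin {A : Matrix (Fin (n + 1)) (Fin (n + 1)) ℂ} (hA : A.IsSymm) :
    Module.finrank ℂ (LinearMap.range (Matrix.toBilin' A)) = A.rank := by
  let e : (Fin (n + 1) → ℂ) →ₗ[ℂ] ((Fin (n + 1) → ℂ) →ₗ[ℂ] ℂ) := Matrix.toBilin' 1
  have hev : ∀ v w, e v w = v ⬝ᵥ w := by
    intro v w
    show Matrix.toBilin' 1 v w = _
    rw [Matrix.toBilin'_apply', Matrix.one_mulVec]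
  have he : Function.Injective e := by
    rw [injective_iff_map_eq_zero]
    intro v hv
    refine dotProduct_eq_zero v fun w => ?_
    rw [← hev, hv]
    rfl
  have h : (Matrix.toBilin' A) = e ∘ₗ A.mulVecLin := by
    apply LinearMap.ext
    intro v
    apply LinearMap.ext
    intro w
    rw [LinearMap.comp_apply, hev, Matrix.toBilin'_apply', Matrix.mulVecLin_apply,
      Matrix.dotProduct_mulVec, ← Matrix.mulVec_transpose, hA.eq]
  rw [h, LinearMap.range_comp]
  exact (Submodule.equivMapOfInjective e he _).finrank_eq.symm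

theorem matrix_iff (hn : 1 ≤ n) {A : Matrix (Fin (n + 1)) (Fin (n + 1)) ℂ} (hA : A.IsSymm)
    (hA0 : A ≠ 0) : LogRationallyConnected Set.univ (quadric A) ↔ A.rank ≠ 2 := by
  have h := quadric_iff hn (toBilin_symm hA) (fun h0 => hA0 (by
    have : Matrix.toBilin' A = Matrix.toBilin' 0 := by rw [h0, map_zero]
    exact (Matrix.toBilin' (R₁ := ℂ)).injective this))
  rw [rank_toBilin hA] at h
  have hq : quadricB (Matrix.toBilin' A) = quadric A := by
    ext P
    show Matrix.toBilin' A P.rep P.rep = 0 ↔ P.rep ⬝ᵥ A.mulVec P.rep = 0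
    rw [Matrix.toBilin'_apply']
  rwa [hq] at h

theorem lrc_hyperplane' (hn : 1 ≤ n) (a : Fin (n + 1) → ℂ) :
    LogRationallyConnected Set.univ (hyperplane a) := by
  have h := lrc_hyperplane hn (Matrix.toBilin' (1 : Matrix (Fin (n + 1)) (Fin (n + 1)) ℂ) a)
  have hq : hyperplaneL (Matrix.toBilin' (1 : Matrix (Fin (n + 1)) (Fin (n + 1)) ℂ) a) =
      hyperplane a := by
    ext P
    show Matrix.toBilin' 1 a P.rep = 0 ↔ a ⬝ᵥ P.rep = 0
    rw [Matrix.toBilin'_apply', Matrix.one_mulVec]
  rwa [hq] at h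

end pos

/-- (1) Let `D` be a subset of `X ⊆ ℙⁿ` which contains the zero set in `X` of a form `G` of positive
degree, but is not contained in it, nor equal to `X`. Then `(X, D)` is not log rationally connected.
(2) `(ℙⁿ, V(G H))` is not log rationally connected if `G` and `H` are forms of positive degree
without common factor. (3) For `n ≥ 1` and a symmetric matrix `A ≠ 0`, the pair
`(ℙⁿ, V(xᵀ A x))` is log rationally connected if and only if the rank of `A` is not two, that is, if
and only if the quadric is irreducible (as a set). (4) `(ℙⁿ, D)` is log rationally connected for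
every hyperplane `D`, `n ≥ 1`. -/
theorem result :
    (∀ (n d : ℕ) (G : MvPolynomial (Fin (n + 1)) ℂ) (X D : Set (PP n)), 1 ≤ d →
      G.IsHomogeneous d → X ∩ hypersurface G ⊆ D → (∃ p ∈ X ∩ D, p ∉ hypersurface G) →
      (∃ q ∈ X, q ∉ D) → ¬ LogRationallyConnected X D) ∧
    (∀ (n a b : ℕ) (G H : MvPolynomial (Fin (n + 1)) ℂ), 1 ≤ a → 1 ≤ b → G.IsHomogeneous a →
      H.IsHomogeneous b → IsRelPrime G H →
      ¬ LogRationallyConnected Set.univ (hypersurface (G * H))) ∧
    (∀ (n : ℕ) (A : Matrix (Fin (n + 1)) (Fin (n + 1)) ℂ), 1 ≤ n → A.IsSymm → A ≠ 0 →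
      (LogRationallyConnected Set.univ (quadric A) ↔ A.rank ≠ 2)) ∧
    (∀ (n : ℕ) (a : Fin (n + 1) → ℂ), 1 ≤ n → a ≠ 0 →
      LogRationallyConnected Set.univ (hyperplane a)) :=
  ⟨fun _ _ _ _ _ hd hG h1 h2 h3 => not_lrc hd hG h1 h2 h3,
    fun _ _ _ _ _ ha hb hG hH h => not_lrc_reducible ha hb hG hH h,
    fun _ _ hn hA hA0 => matrix_iff hn hA hA0, fun _ a hn _ => lrc_hyperplane' hn a⟩

end Pool.Agent.Results.MP_776d16_ag.QuadricsAndReducible
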